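import Pool.Agent.Helper10.QRH.StA
import Pool.Agent.Helper79.QRH.KFacts

/-! Project QRH (MP_768c9c_nt), Part A6: few cells without primes. -/

set_option autoImplicit false
open Filter Topology MeasureTheory Finset
open scoped ArithmeticFunction.vonMangoldt

namespace Pool.Agent.Helper30.QRH

open Pool.Agent.Helper10.QRH

lemma card_diam {l : ℕ} (X : Finset ℕ) (hd : ∀ x ∈ X, ∀ y ∈ X, x ≤ y + l) : X.card ≤ l + 1 := by
  rcases X.eq_empty_or_nonempty with h | h
  · simp [h]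
  · set a := X.min' h with ha
    have hamem : a ∈ X := X.min'_mem h
    have hsub : X ⊆ Icc a (a + l) := by
      intro x hx
      rw [mem_Icc]
      exact ⟨X.min'_le x hx, hd x hx a hamem⟩
    calc X.card ≤ (Icc a (a + l)).card := card_le_card hsub
      _ = l + 1 := by rw [Nat.card_Icc]; omega

/-- `a`-th powers in a short interval -/
lemma pow_count (y H D a : ℕ) (ha : 2 ≤ a) (hD : 0 < D) (hDy : D * D ≤ y) (T : Finset ℕ)
    (hT : ∀ m ∈ T, y ≤ m ^ a ∧ m ^ a < y + H) : T.card ≤ H / D + 1 := by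
  apply card_diam
  intro x hx z hz
  by_contra hc
  push Not at hc
  have hzx : z < x := lt_of_le_of_lt (Nat.le_add_right _ _) hc
  have h1 := hT x hx
  have h2 := hT z hz
  obtain ⟨b, rfl⟩ : ∃ b, a = b + 1 := ⟨a - 1, by omega⟩
  have hx0 : 0 < x := by omega
  have h3 : D ≤ x ^ b := by
    by_contra hlt
    push Not at hlt
    have h4 : x ^ (b + 1) ≤ x ^ b * x ^ b := by
      rw [pow_succ]
      exact Nat.mul_le_mul_left _ (Nat.le_self_pow (by omega) x)
    have h5 : x ^ b * x ^ b < D * D := Nat.mul_lt_mul_of_lt_of_le hlt hlt.le hD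
    omega
  have h6 : z ^ (b + 1) + (x - z) * x ^ b ≤ x ^ (b + 1) := by
    have h7 : z ^ (b + 1) ≤ z * x ^ b := by
      rw [pow_succ, mul_comm]
      exact Nat.mul_le_mul_left _ (Nat.pow_le_pow_left hzx.le b)
    have h8 : z * x ^ b + (x - z) * x ^ b = x ^ (b + 1) := by
      rw [← add_mul, pow_succ, mul_comm]
      congr 1
      omega
    omega
  have h9 : (x - z) * D ≤ (x - z) * x ^ b := Nat.mul_le_mul_left _ h3
  have h10 : (x - z) * D ≤ H := by omega
  have h11 : x - z ≤ H / D := (Nat.le_div_iff_mul_le hD).2 h10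
  omega

/-- proper prime powers in a short interval -/
lemma ppow_count (k y H D : ℕ) (hD : 0 < D) (hDy : D * D ≤ y)
    (hy2 : y + H ≤ 2 ^ (k + 1)) :
    ((Ico y (y + H)).filter (fun n => IsPrimePow n ∧ ¬ n.Prime)).card ≤ k * (H / D + 1) := by
  classical
  have hsub : (Ico y (y + H)).filter (fun n => IsPrimePow n ∧ ¬ n.Prime) ⊆
      (Icc 2 k).biUnion (fun a => ((range (2 ^ (k + 1))).filter
        (fun m => y ≤ m ^ a ∧ m ^ a < y + H)).image (fun m => m ^ a)) := by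
    intro n hn
    rw [mem_filter, mem_Ico] at hn
    obtain ⟨⟨hn1, hn2⟩, hpp, hnp⟩ := hn
    rw [isPrimePow_nat_iff] at hpp
    obtain ⟨p, a, hp, ha, rfl⟩ := hpp
    have ha2 : 2 ≤ a := by
      by_contra hc
      have : a = 1 := by omega
      subst this
      rw [pow_one] at hnp
      exact hnp hp
    have h1 : 2 ^ a ≤ p ^ a := Nat.pow_le_pow_left hp.two_le a
    have h2 : 2 ^ a < 2 ^ (k + 1) := by omega
    have h3 : a < k + 1 := (Nat.pow_lt_pow_iff_right (by norm_num)).1 h2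
    have h4 : p ≤ p ^ a := Nat.le_self_pow (by omega) p
    simp only [mem_biUnion, mem_Icc, mem_image, mem_filter, mem_range]
    exact ⟨a, ⟨ha2, by omega⟩, p, ⟨by omega, hn1, hn2⟩, rfl⟩
  refine (card_le_card hsub).trans (card_biUnion_le.trans ?_)
  have hb : ∀ a ∈ Icc 2 k, (((range (2 ^ (k + 1))).filter
        (fun m => y ≤ m ^ a ∧ m ^ a < y + H)).image (fun m => m ^ a)).card ≤ H / D + 1 := by
    intro a ha
    rw [mem_Icc] at ha
    refine card_image_le.trans (pow_count y H D a ha.1 hD hDy _ ?_)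
    intro m hm
    exact (mem_filter.1 hm).2
  refine (sum_le_sum hb).trans ?_
  rw [sum_const, Nat.card_Icc, smul_eq_mul]
  exact Nat.mul_le_mul_right _ (by omega)

/-- the sum of `Λ` over a bad cell -/
lemma cell_sum (k y H D : ℕ) (hD : 0 < D) (hDy : D * D ≤ y)
    (hy2 : y + H ≤ 2 ^ (k + 1)) (π : ℝ)
    (hπ : ((((Ico y (y + H)).filter Nat.Prime).card : ℕ) : ℝ) ≤ π) :
    ∑ n ∈ Ico y (y + H), Λ n ≤ ((k + 1) * Real.log 2) * (π + k * (H / D + 1)) := by
  classical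
  have h1 : ∀ n ∈ Ico y (y + H), Λ n ≤ if IsPrimePow n then ((k : ℝ) + 1) * Real.log 2 else 0 := by
    intro n hn
    rw [mem_Ico] at hn
    split_ifs with h
    · refine ArithmeticFunction.vonMangoldt_le_log.trans ?_
      have h2 : (n : ℝ) ≤ 2 ^ (k + 1) := by exact_mod_cast (by omega : n ≤ 2 ^ (k + 1))
      have hn0 : (0 : ℝ) < n := by exact_mod_cast h.pos
      refine (Real.log_le_log hn0 h2).trans (le_of_eq ?_)
      rw [Real.log_pow]
      push_cast
      ring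
    · exact (ArithmeticFunction.vonMangoldt_eq_zero_iff.2 h).le
  refine (sum_le_sum h1).trans ?_
  rw [← sum_filter, sum_const, nsmul_eq_mul, mul_comm]
  have hlog : 0 ≤ ((k : ℝ) + 1) * Real.log 2 := by positivity
  apply mul_le_mul_of_nonneg_left _ hlog
  have h3 : ((Ico y (y + H)).filter IsPrimePow).card ≤ ((Ico y (y + H)).filter Nat.Prime).card +
      ((Ico y (y + H)).filter (fun n => IsPrimePow n ∧ ¬ n.Prime)).card := by
    have : (Ico y (y + H)).filter IsPrimePow ⊆ (Ico y (y + H)).filter Nat.Prime ∪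
        (Ico y (y + H)).filter (fun n => IsPrimePow n ∧ ¬ n.Prime) := by
      intro n hn
      rw [mem_filter] at hn
      rw [mem_union, mem_filter, mem_filter]
      by_cases hp : n.Prime
      · exact Or.inl ⟨hn.1, hp⟩
      · exact Or.inr ⟨hn.1, hn.2, hp⟩
    exact (card_le_card this).trans (card_union_le _ _)
  have h4 := ppow_count k y H D hD hDy hy2
  have h5 : (((Ico y (y + H)).filter IsPrimePow).card : ℝ) ≤
      ((((Ico y (y + H)).filter Nat.Prime).card : ℕ) : ℝ) + ((k * (H / D + 1) : ℕ) : ℝ) := by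
    exact_mod_cast h3.trans (Nat.add_le_add_left h4 _)
  have h6 : ((k * (H / D + 1) : ℕ) : ℝ) ≤ k * ((H : ℝ) / D + 1) := by
    push_cast
    apply mul_le_mul_of_nonneg_left _ (Nat.cast_nonneg k)
    have : ((H / D : ℕ) : ℝ) ≤ (H : ℝ) / D := Nat.cast_div_le
    linarith
  linarith

lemma log_gap {a b : ℝ} (ha : 0 < a) (hab : a ≤ b) : (b - a) / b ≤ Real.log b - Real.log a := by
  have hb : 0 < b := lt_of_lt_of_le ha hab
  have h1 := Real.one_sub_inv_le_log_of_pos (x := b / a) (by positivity)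
  rw [Real.log_div hb.ne' ha.ne', inv_div] at h1
  refine le_trans (le_of_eq ?_) h1
  field_simp

/-- the smoothed sum is bounded by the sum over the cell -/
lemma smooth_le {lam X : ℝ} (y H : ℕ) (hlam : 0 < lam) (hX : 0 < X) (hHX : lam * (4 * X) ≤ H)
    (hy : X ≤ y) (hy2 : (y : ℝ) + H ≤ 2 * X) :
    ∑' n : ℕ, Λ n * tri lam (Real.log (y + H / 2) - Real.log n) ≤
      1 / lam * ∑ n ∈ Ico y (y + H), Λ n := by
  have hH : (0 : ℝ) < H := by
    refine lt_of_lt_of_le (by positivity) hHX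
  have hy0 : (0 : ℝ) < y := by linarith
  have hz : ∀ n ∉ Ico y (y + H), Λ n * tri lam (Real.log (y + H / 2) - Real.log n) = 0 := by
    intro n hn
    rw [mem_Ico, not_and_or, not_le, not_lt] at hn
    rcases Nat.eq_zero_or_pos n with h0 | h0
    · subst h0
      simp
    have hn0 : (0 : ℝ) < n := by exact_mod_cast h0
    rw [Helper79.QRH.tri_zero hlam, mul_zero]
    rcases hn with hn | hn
    · have h1 : (n : ℝ) ≤ y := by exact_mod_cast hn.le
      have h2 := Real.log_le_log hn0 h1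
      have h3 := log_gap (a := (y : ℝ)) (b := y + H / 2) hy0 (by linarith)
      have h4 : lam ≤ ((y : ℝ) + H / 2 - y) / (y + H / 2) := by
        rw [le_div_iff₀ (by positivity)]
        nlinarith
      rw [le_abs]
      left
      linarith
    · have h1 : (y : ℝ) + H ≤ n := by exact_mod_cast hn
      have h2 := Real.log_le_log (by positivity) h1
      have h3 := log_gap (a := (y : ℝ) + H / 2) (b := y + H) (by positivity) (by linarith)
      have h4 : lam ≤ ((y : ℝ) + H - (y + H / 2)) / (y + H) := by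
        rw [le_div_iff₀ (by positivity)]
        nlinarith
      rw [le_abs]
      right
      linarith
  rw [tsum_eq_sum hz, mul_sum]
  apply sum_le_sum
  intro n _
  rw [mul_comm]
  exact mul_le_mul_of_nonneg_right (Helper79.QRH.tri_le hlam)
    ArithmeticFunction.vonMangoldt_nonneg

lemma smooth_nonneg {lam : ℝ} (hlam : 0 < lam) (u : ℝ) :
    0 ≤ ∑' n : ℕ, Λ n * tri lam (u - Real.log n) :=
  tsum_nonneg fun _ => mul_nonneg ArithmeticFunction.vonMangoldt_nonneg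
    (Helper79.QRH.tri_nonneg hlam)

/-- `KK lam 1` is real and at least `1/2` -/
lemma KK_one {lam : ℝ} (hlam : 0 < lam) : ∃ κ : ℝ, 1 / 2 ≤ κ ∧ KK lam 1 = κ := by
  refine ⟨(Real.exp lam + Real.exp (-lam) - 2) / lam ^ 2, ?_, ?_⟩
  · have h1 := Real.quadratic_le_exp_of_nonneg hlam.le
    have h2 := Real.add_one_le_exp (-lam)
    rw [le_div_iff₀ (by positivity)]
    linarith
  · rw [Helper79.QRH.KK_closed hlam one_ne_zero]
    push_cast
    ring_nf

lemma multiset_bound (M : Multiset ℂ) (h : ∀ ρ ∈ M, ρ.re < 1) :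
    ∃ β : ℝ, 0 ≤ β ∧ β < 1 ∧ ∀ ρ ∈ M, ρ.re ≤ β := by
  induction M using Multiset.induction_on with
  | empty => exact ⟨0, le_rfl, by norm_num, by simp⟩
  | cons a M ih =>
    obtain ⟨β, h0, h1, h2⟩ := ih fun ρ hρ => h ρ (Multiset.mem_cons_of_mem hρ)
    refine ⟨max β a.re, le_max_of_le_left h0, max_lt h1 (h a (Multiset.mem_cons_self a M)), ?_⟩
    intro ρ hρ
    rw [Multiset.mem_cons] at hρ
    rcases hρ with rfl | hρ
    · exact le_max_right _ _
    · exact (h2 ρ hρ).trans (le_max_left _ _)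

lemma multiset_sum_bound (M : Multiset ℂ) (f : ℂ → ℂ) (b : ℝ) (h : ∀ ρ ∈ M, ‖f ρ‖ ≤ b) :
    ‖(M.map f).sum‖ ≤ Multiset.card M * b := by
  induction M using Multiset.induction_on with
  | empty => simp
  | cons a M ih =>
    rw [Multiset.map_cons, Multiset.sum_cons, Multiset.card_cons]
    have h1 := ih fun ρ hρ => h ρ (Multiset.mem_cons_of_mem hρ)
    have h2 := h a (Multiset.mem_cons_self a M)
    refine (norm_add_le _ _).trans ?_
    push_cast
    linarith

lemma num_bound {K H D X L : ℝ} (hK : 100 ≤ K) (hH : 2000 * K ^ 2 ≤ H) (hD : 2000 * K ^ 2 ≤ D)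
    (hX : 0 < X) (hL : L ≤ 0.6932) :
    1 / (H / (8 * X)) * (((K + 1) * L) * (H / (50 * K) + K * (H / D + 1))) ≤ 0.13 * X := by
  have hK0 : 0 < K := by linarith
  have hK2 : 0 < K ^ 2 := by positivity
  have hH0 : 0 < H := by linarith
  have hD0 : 0 < D := by linarith
  have e1 : 1 / (H / (8 * X)) = 8 * X / H := by field_simp
  rw [e1, div_mul_eq_mul_div, div_le_iff₀ hH0]
  have h1 : (K + 1) * (H / (50 * K)) ≤ 0.0202 * H := by
    rw [← mul_div_assoc, div_le_iff₀ (by positivity)]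
    nlinarith
  have h2 : (K + 1) * (K * (H / D)) ≤ 0.00051 * H := by
    have : (K + 1) * (K * (H / D)) = (K + 1) * K * H / D := by ring
    rw [this, div_le_iff₀ hD0]
    have h3 : (K + 1) * K ≤ 0.00051 * D := by nlinarith
    nlinarith
  have h3 : (K + 1) * K ≤ 0.00051 * H := by nlinarith
  have h4 : (K + 1) * (H / (50 * K) + K * (H / D + 1)) ≤ 0.02122 * H := by
    have : (K + 1) * (H / (50 * K) + K * (H / D + 1)) =
      (K + 1) * (H / (50 * K)) + (K + 1) * (K * (H / D)) + (K + 1) * K := by ring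
    rw [this]
    linarith
  have h5 : L * ((K + 1) * (H / (50 * K) + K * (H / D + 1))) ≤ 0.6932 * (0.02122 * H) :=
    mul_le_mul hL h4 (by positivity) (by norm_num)
  calc 8 * X * (((K + 1) * L) * (H / (50 * K) + K * (H / D + 1)))
      = 8 * X * (L * ((K + 1) * (H / (50 * K) + K * (H / D + 1)))) := by ring
    _ ≤ 8 * X * (0.6932 * (0.02122 * H)) := mul_le_mul_of_nonneg_left h5 (by positivity)
    _ ≤ 0.13 * X * H := by nlinarith [mul_pos hX hH0]

lemma exp_beat (c β : ℝ) (hβ : β < 1) :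
    ∃ K : ℕ, ∀ k : ℕ, K ≤ k → c * (2 * (2 : ℝ) ^ k) ^ β ≤ 0.05 * (2 : ℝ) ^ k := by
  have h1 : (2 : ℝ) ^ (β - 1) < 1 := Real.rpow_lt_one_of_one_lt_of_neg (by norm_num) (by linarith)
  have h2 := tendsto_pow_atTop_nhds_zero_of_lt_one (by positivity) h1
  have h3 : Tendsto (fun k : ℕ => c * (2 : ℝ) ^ β * ((2 : ℝ) ^ (β - 1)) ^ k) atTop
      (𝓝 (c * (2 : ℝ) ^ β * 0)) := h2.const_mul _
  rw [mul_zero] at h3
  have h4 := h3.eventually (gt_mem_nhds (show (0 : ℝ) < 0.05 by norm_num))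
  obtain ⟨K, hK⟩ := eventually_atTop.mp h4
  refine ⟨K, fun k hk => ?_⟩
  have h5 := (hK k hk).le
  have h6 : (0 : ℝ) < 2 ^ k := by positivity
  have h7 : (2 * (2 : ℝ) ^ k) ^ β = (2 : ℝ) ^ β * ((2 : ℝ) ^ (β - 1)) ^ k * 2 ^ k := by
    have e1 : ((2 : ℝ) ^ k) ^ β = (2 : ℝ) ^ ((k : ℝ) * β) := by
      rw [← Real.rpow_natCast 2 k, ← Real.rpow_mul (by norm_num)]
    have e2 : ((2 : ℝ) ^ (β - 1)) ^ k = (2 : ℝ) ^ ((β - 1) * (k : ℝ)) := by
      rw [← Real.rpow_natCast ((2 : ℝ) ^ (β - 1)) k, ← Real.rpow_mul (by norm_num)]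
    have e3 : (2 : ℝ) ^ ((β - 1) * (k : ℝ)) * (2 : ℝ) ^ k = (2 : ℝ) ^ ((k : ℝ) * β) := by
      rw [← Real.rpow_natCast 2 k, ← Real.rpow_add (by norm_num)]
      congr 1
      ring
    rw [Real.mul_rpow (by norm_num) h6.le, e1, e2, mul_assoc, e3]
  rw [h7]
  calc c * ((2 : ℝ) ^ β * ((2 : ℝ) ^ (β - 1)) ^ k * 2 ^ k)
      = c * (2 : ℝ) ^ β * ((2 : ℝ) ^ (β - 1)) ^ k * 2 ^ k := by ring
    _ ≤ 0.05 * 2 ^ k := mul_le_mul_of_nonneg_right h5 h6.le

lemma D_large : ∃ K : ℕ, ∀ k : ℕ, K ≤ k → 2000 * (k : ℝ) ^ 2 ≤ ((2 ^ (k / 2) : ℕ) : ℝ) := by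
  have h1 : 1 < (2 : ℝ) ^ (1 / 2 : ℝ) := Real.one_lt_rpow (by norm_num) (by norm_num)
  have h2 := (tendsto_pow_const_div_const_pow_of_one_lt 2 h1).const_mul 4000
  rw [mul_zero] at h2
  have h4 := h2.eventually (gt_mem_nhds (show (0 : ℝ) < 1 by norm_num))
  obtain ⟨K, hK⟩ := eventually_atTop.mp h4
  refine ⟨K, fun k hk => ?_⟩
  have h5 := (hK k hk).le
  have h6 : (0 : ℝ) < ((2 : ℝ) ^ (1 / 2 : ℝ)) ^ k := by positivity
  rw [← mul_div_assoc, div_le_one h6] at h5
  have h7 : ((2 : ℝ) ^ (1 / 2 : ℝ)) ^ k ≤ 2 * ((2 ^ (k / 2) : ℕ) : ℝ) := by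
    have h8 : ((2 : ℝ) ^ (1 / 2 : ℝ)) ^ k = (2 : ℝ) ^ ((k : ℝ) / 2) := by
      rw [← Real.rpow_natCast, ← Real.rpow_mul (by norm_num)]
      congr 1
      ring
    have h9 : (2 : ℝ) * ((2 ^ (k / 2) : ℕ) : ℝ) = (2 : ℝ) ^ (((k / 2 + 1 : ℕ) : ℝ)) := by
      rw [Real.rpow_natCast]
      push_cast
      ring
    rw [h8, h9]
    apply Real.rpow_le_rpow_of_exponent_le (by norm_num)
    have h10 : k ≤ 2 * (k / 2 + 1) := by omega
    have h11 : (k : ℝ) ≤ 2 * ((k / 2 + 1 : ℕ) : ℝ) := by exact_mod_cast h10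
    linarith
  linarith

/-- the lower bound for one bad cell -/
lemma bad_lower (M : Multiset ℂ) (CK β : ℝ) (hβ0 : 0 ≤ β) (hβ : ∀ ρ ∈ M, ρ.re ≤ β)
    (hM : ∀ ρ ∈ M, 0 ≤ ρ.re ∧ ρ.re ≤ 2)
    (hCK : ∀ lam : ℝ, 0 < lam → lam ≤ 1 → ∀ s : ℂ, 0 ≤ s.re → s.re ≤ 2 →
      ‖KK lam s‖ ≤ CK / (1 + (lam * s.im) ^ 2)) (hCK0 : 0 ≤ CK)
    (k e j : ℕ) (hk : 100 ≤ k) (he : e ≤ k) (hj : j < 2 ^ (k - e))
    (hbad : ((((Ico (2 ^ k + j * 2 ^ e) (2 ^ k + (j + 1) * 2 ^ e)).filter Nat.Prime).card : ℕ) : ℝ)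
          < (2 : ℝ) ^ e / (50 * k))
    (hHk : 2000 * (k : ℝ) ^ 2 ≤ (2 : ℝ) ^ e) (hDk : 2000 * (k : ℝ) ^ 2 ≤ ((2 ^ (k / 2) : ℕ) : ℝ))
    (hMk : Multiset.card M * CK * (2 * (2 : ℝ) ^ k) ^ β ≤ 0.05 * (2 : ℝ) ^ k)
    (lam u : ℝ) (hlam : lam = (2 : ℝ) ^ e / (8 * (2 : ℝ) ^ k))
    (hu : u = Real.log (((2 ^ k + j * 2 ^ e : ℕ) : ℝ) + ((2 ^ e : ℕ) : ℝ) / 2)) :
    (2 : ℝ) ^ k / 4 ≤
      ‖((∑' n : ℕ, ArithmeticFunction.vonMangoldt n * tri lam (u - Real.log n) : ℝ) : ℂ)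
      - Complex.exp u * KK lam 1 + (M.map (fun ρ => Complex.exp (ρ * u) * KK lam ρ)).sum‖ := by
  set X : ℝ := (2 : ℝ) ^ k with hX
  have hX0 : 0 < X := by positivity
  have hX1 : 1 ≤ X := one_le_pow₀ (by norm_num)
  have hHX : (2 : ℝ) ^ e ≤ X := pow_le_pow_right₀ (by norm_num) he
  have hlam0 : 0 < lam := by rw [hlam]; positivity
  have hlam1 : lam ≤ 1 := by
    rw [hlam, div_le_one (by positivity)]
    linarith
  set y : ℕ := 2 ^ k + j * 2 ^ e with hy
  set H : ℕ := 2 ^ e with hH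
  have hHr : (H : ℝ) = (2 : ℝ) ^ e := by rw [hH]; push_cast; ring
  have hyH : 2 ^ k + (j + 1) * H = y + H := by rw [hy]; ring
  rw [hyH] at hbad
  have hy2 : y + H ≤ 2 ^ (k + 1) := by
    rw [← hyH]
    have h1 : (j + 1) * H ≤ 2 ^ (k - e) * 2 ^ e := Nat.mul_le_mul_right _ hj
    rw [← pow_add, Nat.sub_add_cancel he] at h1
    rw [pow_succ]
    omega
  have hyX : X ≤ y := by
    have : 2 ^ k ≤ y := by rw [hy]; exact Nat.le_add_right _ _
    have h1 : ((2 ^ k : ℕ) : ℝ) ≤ y := by exact_mod_cast this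
    push_cast at h1
    exact h1
  have hyX2 : (y : ℝ) + H ≤ 2 * X := by
    have h1 : ((y + H : ℕ) : ℝ) ≤ ((2 ^ (k + 1) : ℕ) : ℝ) := by exact_mod_cast hy2
    push_cast at h1
    rw [pow_succ] at h1
    linarith
  have hH0 : (0 : ℝ) < H := by rw [hHr]; positivity
  have hlamX : lam * (4 * X) ≤ H := by
    rw [hlam, ← hHr, div_mul_eq_mul_div, div_le_iff₀ (by positivity)]
    nlinarith
  -- the prime sum
  have hS0 := smooth_nonneg hlam0 u
  have hS1 := smooth_le (lam := lam) (X := X) y H hlam0 hX0 hlamX hyX hyX2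
  rw [← hu] at hS1
  have hD0 : 0 < 2 ^ (k / 2) := by positivity
  have hDy : 2 ^ (k / 2) * 2 ^ (k / 2) ≤ y := by
    rw [← pow_add]
    refine (Nat.pow_le_pow_right (by norm_num) (show k / 2 + k / 2 ≤ k by omega)).trans ?_
    rw [hy]
    exact Nat.le_add_right _ _
  have hcs := cell_sum k y H (2 ^ (k / 2)) hD0 hDy hy2 ((2 : ℝ) ^ e / (50 * k)) hbad.le
  have hkr : (100 : ℝ) ≤ k := by exact_mod_cast hk
  have hlog2 := Real.log_two_lt_d9
  have hnb := num_bound (K := k) (H := (2 : ℝ) ^ e) (D := ((2 ^ (k / 2) : ℕ) : ℝ)) (X := X)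
    (L := Real.log 2) hkr hHk hDk hX0 (by linarith)
  have hS2 : ∑' n : ℕ, Λ n * tri lam (u - Real.log n) ≤ 0.13 * X := by
    refine hS1.trans (le_trans ?_ hnb)
    rw [hlam]
    apply mul_le_mul_of_nonneg_left _ (by positivity)
    rw [← hHr] at hcs ⊢
    exact hcs
  -- the main term
  obtain ⟨κ, hκ, hκe⟩ := KK_one hlam0
  have hmid0 : (0 : ℝ) < (y : ℝ) + H / 2 := by positivity
  have heu : Real.exp u = (y : ℝ) + H / 2 := by rw [hu, Real.exp_log hmid0]
  have hmain : X / 2 ≤ Real.exp u * κ := by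
    rw [heu]
    nlinarith
  -- the zeros
  have hzero : ‖(M.map (fun ρ => Complex.exp (ρ * u) * KK lam ρ)).sum‖ ≤ 0.05 * X := by
    refine (multiset_sum_bound M _ ((2 * X) ^ β * CK) ?_).trans ?_
    · intro ρ hρ
      rw [norm_mul, Complex.norm_exp]
      have h1 : (ρ * (u : ℂ)).re = ρ.re * u := by simp
      rw [h1]
      have hu0 : 0 ≤ u := by
        rw [hu]
        apply Real.log_nonneg
        linarith
      have h2 : Real.exp (ρ.re * u) ≤ (2 * X) ^ β := by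
        have h3 : Real.exp (ρ.re * u) ≤ Real.exp (β * u) :=
          Real.exp_le_exp.2 (mul_le_mul_of_nonneg_right (hβ ρ hρ) hu0)
        have h4 : Real.exp (β * u) = ((y : ℝ) + H / 2) ^ β := by
          rw [Real.rpow_def_of_pos hmid0, ← hu, mul_comm]
        refine h3.trans (h4.le.trans ?_)
        exact Real.rpow_le_rpow hmid0.le (by linarith) hβ0
      have h5 : ‖KK lam ρ‖ ≤ CK := by
        refine (hCK lam hlam0 hlam1 ρ (hM ρ hρ).1 (hM ρ hρ).2).trans ?_
        apply div_le_self hCK0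
        nlinarith [sq_nonneg (lam * ρ.im)]
      exact mul_le_mul h2 h5 (norm_nonneg _) (by positivity)
    · refine le_trans (le_of_eq ?_) hMk
      ring
  set S : ℝ := ∑' n : ℕ, Λ n * tri lam (u - Real.log n) with hS
  have hA : ((S : ℂ) - Complex.exp u * KK lam 1) = ((S - Real.exp u * κ : ℝ) : ℂ) := by
    rw [hκe]
    push_cast
    ring
  have hB : ‖((S : ℂ) - Complex.exp u * KK lam 1)‖ ≥ X / 2 - 0.13 * X := by
    rw [hA, Complex.norm_real, Real.norm_eq_abs, abs_sub_comm]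
    refine le_trans ?_ (le_abs_self _)
    linarith
  have hC := norm_sub_le_norm_add ((S : ℂ) - Complex.exp u * KK lam 1)
    (M.map (fun ρ => Complex.exp (ρ * u) * KK lam ρ)).sum
  linarith

/-- A6: few bad cells. -/
theorem badCells (hG : ExistsG) (hK : KFacts) (hE : Explicit) (hD : Duality) : BadCells := by
  intro σ₀ σ₁ h0 h01 h1 hfin
  obtain ⟨M, G, hGP⟩ := hG σ₀ h0 (h01.trans h1) hfin
  obtain ⟨CK, hCK⟩ := hK.bound
  obtain ⟨CG, hCG⟩ := hGP.bound σ₁ h01
  obtain ⟨CD, hCD⟩ := hD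
  obtain ⟨β, hβ0, hβ1, hβ⟩ := multiset_bound M (fun ρ hρ => (hGP.mem ρ hρ).2)
  have hM : ∀ ρ ∈ M, 0 ≤ ρ.re ∧ ρ.re ≤ 2 := fun ρ hρ =>
    ⟨by have := (hGP.mem ρ hρ).1; linarith, by have := (hGP.mem ρ hρ).2; linarith⟩
  have hCK0 : 0 ≤ CK := by
    have h2 := hCK 1 one_pos le_rfl 0 (by simp) (by simp)
    have h3 := norm_nonneg (KK 1 0)
    simp only [Complex.zero_im, mul_zero, ne_eq, OfNat.ofNat_ne_zero, not_false_eq_true, zero_pow,
      add_zero, div_one] at h2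
    linarith
  have hCG0 : 0 ≤ CG := by
    have h2 := hCG (σ₁ : ℂ) (by simp) (by simp; linarith)
    have h3 := norm_nonneg (G (σ₁ : ℂ))
    simp only [Complex.ofReal_im, abs_zero, add_zero] at h2
    have h4 : 0 < Real.log 2 := Real.log_pos (by norm_num)
    by_contra hc
    push Not at hc
    nlinarith
  obtain ⟨Ka, hKa⟩ := exp_beat (Multiset.card M * CK) β hβ1
  obtain ⟨Kb, hKb⟩ := D_large
  set K0 : ℕ := max (max Ka Kb) 100 with hK0
  set C1 : ℝ := 256 * (|CD| * (CK * CG)) ^ 2 with hC1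
  have hC10 : 0 ≤ C1 := by positivity
  refine ⟨2000 + (2 : ℝ) ^ K0 + C1, ?_⟩
  intro k e hk1 he
  set Bd := (Finset.range (2 ^ (k - e))).filter (fun j =>
        ((((Finset.Ico (2 ^ k + j * 2 ^ e) (2 ^ k + (j + 1) * 2 ^ e)).filter Nat.Prime).card : ℕ) : ℝ)
          < (2 : ℝ) ^ e / (50 * k)) with hBd
  have hk1r : (1 : ℝ) ≤ k := by exact_mod_cast hk1
  have hXσ : (2 : ℝ) ^ k ≤ (2 : ℝ) ^ (2 * σ₁ * k) := by
    rw [← Real.rpow_natCast 2 k]
    apply Real.rpow_le_rpow_of_exponent_le (by norm_num)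
    nlinarith
  have he2 : (2 : ℝ) ^ (2 * e) = 2 ^ e * 2 ^ e := by rw [two_mul, pow_add]
  have hE0 : (0 : ℝ) < 2 ^ e := by positivity
  have hX0 : (0 : ℝ) < 2 ^ k := by positivity
  have hK00 : (0 : ℝ) < 2 ^ K0 := by positivity
  by_cases hcase : K0 ≤ k ∧ 2000 * (k : ℝ) ^ 2 ≤ (2 : ℝ) ^ e
  swap
  · -- the trivial bound
    have h2 : (Bd.card : ℝ) ≤ 2 ^ k / 2 ^ e := by
      have h3 : Bd.card ≤ 2 ^ (k - e) := by
        refine (card_filter_le _ _).trans ?_
        rw [card_range]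
      have h4 : (Bd.card : ℝ) ≤ ((2 ^ (k - e) : ℕ) : ℝ) := by exact_mod_cast h3
      refine h4.trans (le_of_eq ?_)
      rw [eq_div_iff hE0.ne']
      push_cast
      rw [← pow_add, Nat.sub_add_cancel he]
    refine h2.trans ?_
    have h5 : (2 : ℝ) ^ e ≤ (2000 + (2 : ℝ) ^ K0 + C1) * (k : ℝ) ^ 2 := by
      have h6 : 1 ≤ (k : ℝ) ^ 2 := one_le_pow₀ hk1r
      rw [not_and_or, not_le, not_le] at hcase
      rcases hcase with h | h
      · have h7 : (2 : ℝ) ^ e ≤ 2 ^ K0 := pow_le_pow_right₀ (by norm_num) (by omega)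
        nlinarith
      · nlinarith
    rw [he2, div_le_div_iff₀ hE0 (by positivity)]
    have h8 : (2 : ℝ) ^ k * (2 ^ e * 2 ^ e) ≤
        (2000 + (2 : ℝ) ^ K0 + C1) * (k : ℝ) ^ 2 * (2 : ℝ) ^ (2 * σ₁ * k) * 2 ^ e := by
      have h9 : (2 : ℝ) ^ k * 2 ^ e ≤
          (2 : ℝ) ^ (2 * σ₁ * k) * ((2000 + (2 : ℝ) ^ K0 + C1) * (k : ℝ) ^ 2) :=
        mul_le_mul hXσ h5 hE0.le (by positivity)
      nlinarith
    exact h8
  · obtain ⟨hkK, hHk⟩ := hcase
    have hka : Ka ≤ k := (le_max_left _ _).trans ((le_max_left _ _).trans hkK)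
    have hkb : Kb ≤ k := (le_max_right _ _).trans ((le_max_left _ _).trans hkK)
    have hk100 : 100 ≤ k := (le_max_right _ _).trans hkK
    have hk100r : (100 : ℝ) ≤ k := by exact_mod_cast hk100
    have hMk := hKa k hka
    have hDk := hKb k hkb
    have hEX : (2 : ℝ) ^ e ≤ 2 ^ k := pow_le_pow_right₀ (by norm_num) he
    set lam : ℝ := (2 : ℝ) ^ e / (8 * (2 : ℝ) ^ k) with hlam
    have hlam0 : 0 < lam := by positivity
    have hlam8 : lam ≤ 1 / 8 := by
      rw [hlam, div_le_div_iff₀ (by positivity) (by norm_num)]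
      linarith
    set U : ℕ → ℝ := fun j => Real.log (((2 ^ k + j * 2 ^ e : ℕ) : ℝ) + ((2 ^ e : ℕ) : ℝ) / 2)
      with hU
    -- separation
    have hsep : ∀ j j' : ℕ, j < j' → j' < 2 ^ (k - e) → lam ≤ U j' - U j := by
      intro j j' hjj hj'
      have h2 : (0 : ℝ) < ((2 ^ k + j * 2 ^ e : ℕ) : ℝ) + ((2 ^ e : ℕ) : ℝ) / 2 := by positivity
      have h3 : (((2 ^ k + j * 2 ^ e : ℕ) : ℝ) + ((2 ^ e : ℕ) : ℝ) / 2) + 2 ^ e ≤
          ((2 ^ k + j' * 2 ^ e : ℕ) : ℝ) + ((2 ^ e : ℕ) : ℝ) / 2 := by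
        have h4 : 2 ^ k + j * 2 ^ e + 2 ^ e ≤ 2 ^ k + j' * 2 ^ e := by
          have : (j + 1) * 2 ^ e ≤ j' * 2 ^ e := Nat.mul_le_mul_right _ hjj
          have h5 : (j + 1) * 2 ^ e = j * 2 ^ e + 2 ^ e := by ring
          omega
        have h6 : ((2 ^ k + j * 2 ^ e + 2 ^ e : ℕ) : ℝ) ≤ ((2 ^ k + j' * 2 ^ e : ℕ) : ℝ) := by
          exact_mod_cast h4
        push_cast at h6 ⊢
        linarith
      have h7 : ((2 ^ k + j' * 2 ^ e : ℕ) : ℝ) + ((2 ^ e : ℕ) : ℝ) / 2 ≤ 2 * 2 ^ k := by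
        have h8 : 2 ^ k + (j' + 1) * 2 ^ e ≤ 2 * 2 ^ k := by
          have h9 : (j' + 1) * 2 ^ e ≤ 2 ^ (k - e) * 2 ^ e := Nat.mul_le_mul_right _ hj'
          rw [← pow_add, Nat.sub_add_cancel he] at h9
          omega
        have h10 : ((2 ^ k + (j' + 1) * 2 ^ e : ℕ) : ℝ) ≤ ((2 * 2 ^ k : ℕ) : ℝ) := by
          exact_mod_cast h8
        push_cast at h10 ⊢
        linarith
      have h11 := log_gap h2 (by linarith :
        (((2 ^ k + j * 2 ^ e : ℕ) : ℝ) + ((2 ^ e : ℕ) : ℝ) / 2) ≤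
          ((2 ^ k + j' * 2 ^ e : ℕ) : ℝ) + ((2 ^ e : ℕ) : ℝ) / 2)
      refine le_trans ?_ h11
      rw [le_div_iff₀ (by linarith)]
      have h12 : lam * (((2 ^ k + j' * 2 ^ e : ℕ) : ℝ) + ((2 ^ e : ℕ) : ℝ) / 2) ≤
          lam * (2 * 2 ^ k) := mul_le_mul_of_nonneg_left h7 hlam0.le
      have h13 : lam * (2 * 2 ^ k) = 2 ^ e / 4 := by
        rw [hlam]
        field_simp
        norm_num
      linarith
    have hBlt : ∀ j ∈ Bd, j < 2 ^ (k - e) := fun j hj => mem_range.1 (mem_filter.1 hj).1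
    have hinj : Set.InjOn U (Bd : Set ℕ) := by
      intro j hj j' hj' hUe
      rcases lt_trichotomy j j' with h | h | h
      · have := hsep j j' h (hBlt j' hj')
        linarith
      · exact h
      · have := hsep j' j h (hBlt j hj)
        linarith
    set R : Finset ℝ := Bd.image U with hR
    have hRcard : R.card = Bd.card := card_image_of_injOn hinj
    have hRsep : ∀ u ∈ R, ∀ u' ∈ R, u ≠ u' → lam ≤ |u - u'| := by
      intro u hu u' hu' hne
      rw [hR, mem_image] at hu hu'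
      obtain ⟨j, hj, rfl⟩ := hu
      obtain ⟨j', hj', rfl⟩ := hu'
      rcases lt_trichotomy j j' with h | h | h
      · have := hsep j j' h (hBlt j' hj')
        rw [abs_sub_comm]
        exact this.trans (le_abs_self _)
      · exact absurd (by rw [h]) hne
      · have := hsep j' j h (hBlt j hj)
        exact this.trans (le_abs_self _)
    -- the function `g`
    set g : ℝ → ℂ := fun t => KK lam (σ₁ + t * Complex.I) * G (σ₁ + t * Complex.I) with hg
    have hgc : Continuous g := by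
      apply Continuous.mul
      · exact (hK.diff lam hlam0).continuous.comp (by fun_prop)
      · apply hGP.diff.continuousOn.comp_continuous (by fun_prop)
        intro t
        simp
        exact h01
    have hgb : ∀ t, ‖g t‖ ≤ (CK * CG) / (1 + (lam * t) ^ 2) * Real.log (2 + |t|) := by
      intro t
      have e1 : ((σ₁ : ℂ) + t * Complex.I).re = σ₁ := by simp
      have e2 : ((σ₁ : ℂ) + t * Complex.I).im = t := by simp
      have h2 := hCK lam hlam0 (by linarith) (σ₁ + t * Complex.I) (by rw [e1]; linarith)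
        (by rw [e1]; linarith)
      have h3 := hCG (σ₁ + t * Complex.I) (by rw [e1]) (by rw [e1]; linarith)
      rw [e2] at h2 h3
      rw [hg, norm_mul]
      refine (mul_le_mul h2 h3 (norm_nonneg _) (by positivity)).trans (le_of_eq ?_)
      ring
    have hdual := hCD lam hlam0 (by linarith) g hgc.measurable (CK * CG) (by positivity) hgb R hRsep
    -- lower bound for each term
    have hlow : ∀ u ∈ R, (1 / 2) * ((2 : ℝ) ^ k) ^ (1 - σ₁) ≤
        ‖∫ t : ℝ, g t * Complex.exp (t * u * Complex.I)‖ := by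
      intro u hu
      rw [hR, mem_image] at hu
      obtain ⟨j, hj, rfl⟩ := hu
      have hj1 := hBlt j hj
      have hj2 := (mem_filter.1 hj).2
      have hb := bad_lower M CK β hβ0 hβ hM hCK hCK0 k e j hk100 he hj1 hj2 hHk hDk hMk lam (U j)
        rfl rfl
      have hyX : (2 : ℝ) ^ k ≤ ((2 ^ k + j * 2 ^ e : ℕ) : ℝ) + ((2 ^ e : ℕ) : ℝ) / 2 := by
        push_cast
        have : (0 : ℝ) ≤ j * 2 ^ e := by positivity
        linarith
      have hyX2 : ((2 ^ k + j * 2 ^ e : ℕ) : ℝ) + ((2 ^ e : ℕ) : ℝ) / 2 ≤ 2 * 2 ^ k := by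
        have h8 : 2 ^ k + (j + 1) * 2 ^ e ≤ 2 * 2 ^ k := by
          have h9 : (j + 1) * 2 ^ e ≤ 2 ^ (k - e) * 2 ^ e := Nat.mul_le_mul_right _ hj1
          rw [← pow_add, Nat.sub_add_cancel he] at h9
          omega
        have h10 : ((2 ^ k + (j + 1) * 2 ^ e : ℕ) : ℝ) ≤ ((2 * 2 ^ k : ℕ) : ℝ) := by
          exact_mod_cast h8
        push_cast at h10 ⊢
        linarith
      have hmid0 : (0 : ℝ) < ((2 ^ k + j * 2 ^ e : ℕ) : ℝ) + ((2 ^ e : ℕ) : ℝ) / 2 := by positivity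
      have hu1 : 1 ≤ U j := by
        have h2 : Real.log ((2 : ℝ) ^ k) ≤ U j := Real.log_le_log hX0 hyX
        rw [Real.log_pow] at h2
        have h3 := Real.log_two_gt_d9
        nlinarith
      rw [hE σ₀ σ₁ h0 h01 h1 M G hGP lam (U j) hlam0 (by linarith) hu1] at hb
      have hint : ∫ t : ℝ, KK lam (σ₁ + t * Complex.I) * G (σ₁ + t * Complex.I) *
          Complex.exp ((σ₁ + t * Complex.I) * (U j : ℝ)) =
          Complex.exp (σ₁ * (U j : ℝ)) * ∫ t : ℝ, g t * Complex.exp (t * (U j : ℝ) * Complex.I) := by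
        rw [← integral_const_mul]
        congr 1
        ext t
        rw [hg]
        simp only
        have : Complex.exp (((σ₁ : ℂ) + t * Complex.I) * (U j : ℝ)) =
            Complex.exp (σ₁ * (U j : ℝ)) * Complex.exp (t * (U j : ℝ) * Complex.I) := by
          rw [← Complex.exp_add]
          congr 1
          ring
        rw [this]
        ring
      rw [hint, norm_mul, norm_mul] at hb
      have hn1 : ‖(1 / (2 * (Real.pi : ℂ)))‖ = 1 / (2 * Real.pi) := by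
        rw [norm_div, norm_one, norm_mul, Complex.norm_real, Real.norm_of_nonneg Real.pi_pos.le]
        simp
      have hn2 : ‖Complex.exp (σ₁ * (U j : ℝ))‖ = Real.exp (σ₁ * U j) := by
        rw [Complex.norm_exp]
        congr 1
        simp
      rw [hn1, hn2] at hb
      set I := ‖∫ t : ℝ, g t * Complex.exp (t * (U j : ℝ) * Complex.I)‖ with hI
      have hI0 : 0 ≤ I := norm_nonneg _
      have hexp : Real.exp (σ₁ * U j) ≤ 2 * ((2 : ℝ) ^ k) ^ σ₁ := by
        have h2 : Real.exp (σ₁ * U j) =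
            (((2 ^ k + j * 2 ^ e : ℕ) : ℝ) + ((2 ^ e : ℕ) : ℝ) / 2) ^ σ₁ := by
          rw [Real.rpow_def_of_pos hmid0, mul_comm]
        rw [h2]
        refine (Real.rpow_le_rpow hmid0.le hyX2 (by linarith)).trans ?_
        rw [Real.mul_rpow (by norm_num) hX0.le]
        apply mul_le_mul_of_nonneg_right _ (by positivity)
        calc (2 : ℝ) ^ σ₁ ≤ (2 : ℝ) ^ (1 : ℝ) :=
              Real.rpow_le_rpow_of_exponent_le (by norm_num) h1.le
          _ = 2 := Real.rpow_one 2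
      have hXsplit : ((2 : ℝ) ^ k) ^ (1 - σ₁) * ((2 : ℝ) ^ k) ^ σ₁ = 2 ^ k := by
        rw [← Real.rpow_add hX0, sub_add_cancel, Real.rpow_one]
      have hXσ0 : (0 : ℝ) < ((2 : ℝ) ^ k) ^ σ₁ := by positivity
      have h3 : 1 / (2 * Real.pi) * (Real.exp (σ₁ * U j) * I) ≤
          1 / 6 * (2 * ((2 : ℝ) ^ k) ^ σ₁ * I) := by
        apply mul_le_mul
        · apply one_div_le_one_div_of_le (by norm_num)
          linarith [Real.pi_gt_three]
        · exact mul_le_mul_of_nonneg_right hexp hI0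
        · positivity
        · norm_num
      have h4 : (2 : ℝ) ^ k / 4 ≤ 1 / 6 * (2 * ((2 : ℝ) ^ k) ^ σ₁ * I) := hb.trans h3
      rw [← hXsplit] at h4
      have h5 : ((2 : ℝ) ^ k) ^ σ₁ * ((1 / 2) * ((2 : ℝ) ^ k) ^ (1 - σ₁)) ≤
          ((2 : ℝ) ^ k) ^ σ₁ * I := by
        have h6 : 0 ≤ ((2 : ℝ) ^ k) ^ σ₁ * I := by positivity
        nlinarith
      exact le_of_mul_le_mul_left h5 hXσ0
    have hsum : (R.card : ℝ) * ((1 / 2) * ((2 : ℝ) ^ k) ^ (1 - σ₁)) ≤
        CD * (CK * CG) * Real.log (1 / lam) / lam * Real.sqrt R.card := by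
      refine le_trans ?_ hdual
      have := sum_le_sum hlow
      rw [sum_const, nsmul_eq_mul] at this
      exact this
    have hloglam : Real.log (1 / lam) ≤ k := by
      have h2 : 1 / lam ≤ 8 * 2 ^ k := by
        rw [hlam, one_div_div]
        apply div_le_self (by positivity)
        exact one_le_pow₀ (by norm_num)
      have h3 := Real.log_le_log (by positivity) h2
      rw [Real.log_mul (by norm_num) (by positivity), Real.log_pow,
        show (8 : ℝ) = 2 ^ 3 by norm_num, Real.log_pow] at h3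
      have h4 := Real.log_two_lt_d9
      push_cast at h3
      nlinarith
    have hloglam0 : 0 ≤ Real.log (1 / lam) := by
      apply Real.log_nonneg
      rw [le_div_iff₀ hlam0]
      linarith
    set n : ℝ := Real.sqrt R.card with hn
    have hn0 : 0 ≤ n := Real.sqrt_nonneg _
    have hn2 : n ^ 2 = R.card := Real.sq_sqrt (Nat.cast_nonneg _)
    set A : ℝ := |CD| * (CK * CG) with hA
    have hA0 : 0 ≤ A := by positivity
    have hn3 : n * ((1 / 2) * ((2 : ℝ) ^ k) ^ (1 - σ₁)) ≤ A * k / lam := by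
      rcases eq_or_lt_of_le hn0 with h | h
      · rw [← h, zero_mul]
        positivity
      · have h2 : CD * (CK * CG) * Real.log (1 / lam) / lam * n ≤ A * k / lam * n := by
          apply mul_le_mul_of_nonneg_right _ hn0
          apply div_le_div_of_nonneg_right _ hlam0.le
          have h3 : CD * (CK * CG) ≤ A := mul_le_mul_of_nonneg_right (le_abs_self CD) (by positivity)
          exact mul_le_mul h3 hloglam hloglam0 hA0
        have h4 := hsum.trans h2
        rw [← hn2] at h4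
        have h5 : n * (n * ((1 / 2) * ((2 : ℝ) ^ k) ^ (1 - σ₁))) ≤ n * (A * k / lam) := by
          nlinarith
        exact le_of_mul_le_mul_left h5 h
    have hXs : ((2 : ℝ) ^ k) ^ (1 - σ₁) = 2 ^ k / ((2 : ℝ) ^ k) ^ σ₁ := by
      rw [Real.rpow_sub hX0, Real.rpow_one]
    have hXσ0 : (0 : ℝ) < ((2 : ℝ) ^ k) ^ σ₁ := by positivity
    have hn4 : n ≤ 16 * A * k * ((2 : ℝ) ^ k) ^ σ₁ / 2 ^ e := by
      rw [hXs, hlam] at hn3
      have h2 : n * (1 / 2 * (2 ^ k / ((2 : ℝ) ^ k) ^ σ₁)) = n * 2 ^ k / (2 * ((2 : ℝ) ^ k) ^ σ₁) := by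
        field_simp
      have h3 : A * k / ((2 : ℝ) ^ e / (8 * 2 ^ k)) = A * k * (8 * 2 ^ k) / 2 ^ e := by
        field_simp
      rw [h2, h3, div_le_div_iff₀ (by positivity) hE0] at hn3
      rw [le_div_iff₀ hE0]
      have h4 : 2 ^ k * (n * 2 ^ e) ≤ 2 ^ k * (16 * A * k * ((2 : ℝ) ^ k) ^ σ₁) := by
        nlinarith
      exact le_of_mul_le_mul_left h4 hX0
    have hn5 : (R.card : ℝ) ≤ C1 * (k : ℝ) ^ 2 * (2 : ℝ) ^ (2 * σ₁ * k) / (2 : ℝ) ^ (2 * e) := by
      rw [← hn2]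
      refine (pow_le_pow_left₀ hn0 hn4 2).trans (le_of_eq ?_)
      have h2 : (((2 : ℝ) ^ k) ^ σ₁) ^ 2 = (2 : ℝ) ^ (2 * σ₁ * k) := by
        rw [← Real.rpow_natCast 2 k, ← Real.rpow_mul (by norm_num), ← Real.rpow_natCast,
          ← Real.rpow_mul (by norm_num)]
        congr 1
        push_cast
        ring
      rw [div_pow, mul_pow, mul_pow, h2, he2, hC1]
      ring
    rw [← hRcard]
    refine hn5.trans ?_
    apply div_le_div_of_nonneg_right _ (by positivity)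
    have h2 : 0 ≤ (k : ℝ) ^ 2 * (2 : ℝ) ^ (2 * σ₁ * k) := by positivity
    nlinarith

end Pool.Agent.Helper30.QRH
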